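import Pool.Agent.H66.Bkr3

open Set Topology Asymptotics

namespace Pool.Agent.Results.MP_f98e31_an.Rigid

open Pool.Agent.H66.Bkr

theorem result : ∀ p ∈ frontier G2 \ Shilov,
    ∀ F : EuclideanSpace ℂ (Fin 2) → EuclideanSpace ℂ (Fin 2),
      DifferentiableOn ℂ F G2 → MapsTo F G2 G2 →
      ((fun z => F z - z) =o[𝓝[G2] p] fun z => ‖z - p‖ ^ 3) → ∀ z ∈ G2, F z = z :=
  fun _ hp _ hF hm ho => final hp hF hm ho

end Pool.Agent.Results.MP_f98e31_an.Rigid
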